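import Pool.Agent.GH.D3.Base3
import Pool.Agent.GH.LN.FExpN

/-!
# Ghost conjecture `(3,4)`: definitions used in the proof

`Ψ = E(q⁴)²/E(q²)`, `A = (Ψ³/Ψ(q³))²` (weight two; `F_4 = qΨ⁴ = A f`), `h = f(q)`,
`g = f(q³) = h³/S(h)` with `S(f) = A(q³)/A(q)`; the matrix `Mat34 x` of `U_3` in the basis
`A^x f^j` of the forms of weight `2x` (before the factor `1 - f²` is split off), with
`(θf)(q³)/f(q³) = R(f) θf/f`, `R = S⁻¹ n_s(h)/ψ_s(g)`. The weight `z^{2x}` is `w = 7^{2x} - 1`.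
-/

open PowerSeries Filter Topology

noncomputable section

namespace GH

namespace D34

theorem three_ne : (3 : ℕ) ≠ 0 := by norm_num

/-- `A = (Ψ³/Ψ(q³))²`, `Ψ = E(q⁴)²/E(q²)`. -/
def A34 (R : Type*) [CommRing R] : PowerSeries R :=
  etaN 4 R ^ 6 * invOfUnit (etaNp 3 4 R) 1 ^ 2

/-- The series `S` in one variable `h` with `S(f(q)) = A(q³)/A(q)`. -/
def S34 (R : Type*) [CommRing R] : PowerSeries R :=
  PowerSeries.mk fun n ↦
    fcoeffN 3 4 ((A34 R).expand 3 three_ne * invOfUnit (A34 R) 1) n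

/-- `g = h³/S(h)`: `f(q³)` in terms of `h = f(q)`. -/
def gs34 (R : Type*) [CommRing R] : PowerSeries R := X ^ 3 * invOfUnit (S34 R) 1

/-- `n_s = (1-x²)²`. -/
def ns34 {A : Type*} [CommRing A] (x : A) : A := (1 - x ^ 2) ^ 2

/-- `ψ_s = (1-9x²)²`. -/
def ps34 {A : Type*} [CommRing A] (x : A) : A := (1 - 9 * x ^ 2) ^ 2

/-- The matrix of `U_3` in the basis `A^x f^j`: `[h^{3i-j}] S^{i-x-1} n_s(h)/ψ_s(g)`. -/
def Mat34 {K : Type*} [Field K] (x : K) (i j : ℕ) : K :=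
  if j ≤ 3 * i then
    PowerSeries.coeff (3 * i - j)
      (ppow (S34 K) ((i : K) - x - 1) *
        (ns34 (X : PowerSeries K) * invOfUnit (ps34 (gs34 K)) 1))
  else 0

/-- `A^x`, a form of weight `2x`. -/
def APow34 {K : Type*} [Field K] (x : K) : PowerSeries K := ppow (A34 K) x

/-- The theorem on the central disc: the Newton polygon of the Fredholm series on
`A^x f ℂ⟨f⟩` (eigenvalue `1` at the cusps `f = 1`, `f = -1` and the cusp forms). -/
def CentralTheorem34 : Prop :=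
  ∀ x : D3.C3, ‖x‖ ≤ 1 →
    newtonPolygon 3 (fred (Mat34 x)) =
      newtonPolygon 3 (fun n ↦ if n < 2 then 1 else ghostN 3 4 0 (D3.wx3 (2 * x)) (n - 2))

end D34

end GH
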