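import Pool.Agent.GH.LN.PStm
import Pool.Agent.GH.LN.MtN
import Pool.Agent.GH.LN.SerN
import Pool.Agent.GH.D3.UBound3

/-!
# Level `N`: the bounds for `(3,4)`
-/

open PowerSeries Filter Topology

noncomputable section

namespace GH

namespace D34

open LN D3

theorem lp2_S0 : PowerSeries.constantCoeff (S34 C3) = 1 :=
  LN.constantCoeff_SN 3 4 three_ne C3

theorem lp2_g0 : PowerSeries.constantCoeff (gs34 C3) = 0 :=
  LN.constantCoeff_gsN 3 4 three_ne C3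

theorem lp2_gS : gs34 C3 * S34 C3 = X ^ 3 := LN.gsN_mul 3 4 three_ne C3

theorem lp2_p (he : Eq34) : S34 C3 * (1 + gs34 C3) * (1 - 3 * gs34 C3) ^ 3 =
    (1 + X) ^ 3 * (1 - 3 * X) := by
  have h1 := congrArg (PowerSeries.map (Int.castRingHom C3)) he.p
  simp only [S34_eq, gs34_eq] at h1 ⊢
  simp only [map_mul, map_pow, map_sub, map_add, map_one, map_ofNat, PowerSeries.map_X, map_SN,
    map_gsN] at h1
  exact h1

theorem lp2_m (he : Eq34) : S34 C3 * (1 - gs34 C3) * (1 + 3 * gs34 C3) ^ 3 =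
    (1 - X) ^ 3 * (1 + 3 * X) := by
  have h1 := congrArg (PowerSeries.map (Int.castRingHom C3)) he.m
  simp only [S34_eq, gs34_eq] at h1 ⊢
  simp only [map_mul, map_pow, map_sub, map_add, map_one, map_ofNat, PowerSeries.map_X, map_SN,
    map_gsN] at h1
  exact h1

/-- The norms of the coefficients of `S`. -/
theorem lp2_bS (hg : Gr34) : Bd (41 / 40) (2 / 5) (S34 C3 - 1) := by
  intro n
  by_cases hn : n = 0
  · subst hn
    rw [PowerSeries.coeff_zero_eq_constantCoeff_apply, map_sub, lp2_S0, map_one, sub_self,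
      norm_zero, zero_mul]
    norm_num
  · obtain ⟨k, hk⟩ := hg n
    have h1 : PowerSeries.coeff n (S34 C3 - 1) = (3 : C3) ^ ((n + 3) / 4) * (k : C3) := by
      rw [map_sub, PowerSeries.coeff_one, if_neg hn, sub_zero]
      have h2 : S34 C3 = PowerSeries.map (Int.castRingHom C3) (S34 ℤ) :=
        (LN.map_SN 3 4 three_ne ℤ (Int.castRingHom C3)).symm
      rw [h2, PowerSeries.coeff_map, hk]
      simp
    rw [h1, norm_mul, norm_pow, norm_three_C3]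
    obtain ⟨m, hm⟩ : ∃ m, (n + 3) / 4 = m + 1 := ⟨(n + 3) / 4 - 1, by omega⟩
    have hnm : n ≤ 4 * (m + 1) := by omega
    rw [hm]
    have h3 : ‖(k : C3)‖ ≤ 1 := d3_ubn_int k
    have h4 : (41 / 40 : ℝ) ^ n ≤ ((41 / 40 : ℝ) ^ 4) ^ (m + 1) := by
      rw [← pow_mul]
      exact pow_le_pow_right₀ (by norm_num) hnm
    calc (3⁻¹ : ℝ) ^ (m + 1) * ‖(k : C3)‖ * (41 / 40 : ℝ) ^ n
        ≤ (3⁻¹ : ℝ) ^ (m + 1) * 1 * ((41 / 40 : ℝ) ^ 4) ^ (m + 1) := by gcongr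
      _ = ((3⁻¹ : ℝ) * (41 / 40 : ℝ) ^ 4) ^ (m + 1) := by rw [mul_one, mul_pow]
      _ ≤ ((3⁻¹ : ℝ) * (41 / 40 : ℝ) ^ 4) ^ 1 :=
          pow_le_pow_of_le_one (by positivity) (by norm_num) (by omega)
      _ ≤ 2 / 5 := by norm_num

/-! ### the calculus of bounds -/

section

variable {ρ : ℝ}

theorem lp2_inv (hρ : 0 < ρ) {F : PowerSeries C3} (hF : Bd ρ 1 F)
    (h0 : PowerSeries.constantCoeff F = 1) : Bd ρ 1 (invOfUnit F 1) :=
  hF.inv hρ h0 (mul_inv_of h0)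

theorem lp2_X (hρ : 0 < ρ) (k : ℕ) : Bd ρ (ρ ^ k) ((X : PowerSeries C3) ^ k) := by
  have h := (Bd.one (K := C3) (ρ := ρ) le_rfl).CX hρ (e := ρ ^ k) (a := 1) (k := k)
    (by rw [norm_one, one_mul, mul_one])
  rwa [map_one, one_mul, mul_one] at h

theorem lp2_one (h1 : 1 ≤ ρ) (k : ℕ) : Bd ρ (ρ ^ k) (1 : PowerSeries C3) :=
  Bd.one (one_le_pow₀ h1)

/-- `3 X^k F` for `k ≤ 3`. -/
theorem lp2_three (h1 : 1 ≤ ρ) (h2 : ρ ≤ 41 / 40) {F : PowerSeries C3} (hF : Bd ρ 1 F) {k : ℕ}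
    (hk : k ≤ 3) : Bd ρ 1 (3 * (X ^ k * F)) := by
  have hρ : 0 < ρ := one_pos.trans_le h1
  have h := hF.CX hρ (e := 1) (a := (3 : C3)) (k := k) (by
    rw [norm_three_C3, mul_one]
    have h3 : ρ ^ k ≤ (41 / 40 : ℝ) ^ 3 :=
      (pow_le_pow_left₀ hρ.le h2 k).trans (pow_le_pow_right₀ (by norm_num) hk)
    have h4 : (41 / 40 : ℝ) ^ 3 ≤ 3 := by norm_num
    linarith)
  rwa [map_ofNat] at h

theorem lp2_S (h1 : 1 ≤ ρ) (h2 : ρ ≤ 41 / 40) (hg : Gr34) : Bd ρ 1 (S34 C3) := by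
  have hρ : 0 < ρ := one_pos.trans_le h1
  have h3 : Bd ρ 1 (S34 C3 - 1) :=
    ((lp2_bS hg).mono_r hρ.le h2).mono_c (by norm_num)
  have h4 := (Bd.one (K := C3) (ρ := ρ) le_rfl).add hρ.le h3
  rwa [add_sub_cancel] at h4

theorem lp2_3g (h1 : 1 ≤ ρ) (h2 : ρ ≤ 41 / 40) (hg : Gr34) : Bd ρ 1 (3 * gs34 C3) := by
  have hρ : 0 < ρ := one_pos.trans_le h1
  exact lp2_three h1 h2 (lp2_inv hρ (lp2_S h1 h2 hg) lp2_S0) le_rfl

theorem lp2_3X (h1 : 1 ≤ ρ) (h2 : ρ ≤ 41 / 40) : Bd ρ 1 (3 * (X : PowerSeries C3)) := by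
  have h := lp2_three (F := 1) h1 h2 (Bd.one le_rfl) (k := 1) (by norm_num)
  rwa [pow_one, mul_one] at h

/-- `1 + X`, `1 - X`. -/
theorem lp2_pX (h1 : 1 ≤ ρ) : Bd ρ ρ (1 + (X : PowerSeries C3)) := by
  have hρ : 0 < ρ := one_pos.trans_le h1
  exact (Bd.one h1).add hρ.le (Bd.X_le hρ.le le_rfl)

theorem lp2_mX (h1 : 1 ≤ ρ) : Bd ρ ρ (1 - (X : PowerSeries C3)) := by
  have hρ : 0 < ρ := one_pos.trans_le h1
  exact (Bd.one h1).sub hρ.le (Bd.X_le hρ.le le_rfl)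

end

/-! ### constant terms -/

theorem lp2_c1 : PowerSeries.constantCoeff (1 + 3 * gs34 C3) = 1 := by simp [lp2_g0]

theorem lp2_c2 : PowerSeries.constantCoeff (1 - 3 * gs34 C3) = 1 := by simp [lp2_g0]

theorem lp2_c3 : PowerSeries.constantCoeff (1 + 3 * (X : PowerSeries C3)) = 1 := by simp

theorem lp2_c4 : PowerSeries.constantCoeff (1 - 3 * (X : PowerSeries C3)) = 1 := by simp

theorem lp2_cp : PowerSeries.constantCoeff
    ((1 + 3 * (X : PowerSeries C3)) * (1 - 3 * gs34 C3) ^ 2) = 1 := by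
  rw [map_mul, map_pow, lp2_c3, lp2_c2]
  norm_num

theorem lp2_cm : PowerSeries.constantCoeff
    ((1 - 3 * (X : PowerSeries C3)) * (1 + 3 * gs34 C3) ^ 2) = 1 := by
  rw [map_mul, map_pow, lp2_c4, lp2_c1]
  norm_num

theorem lp2_cc : PowerSeries.constantCoeff (1 - 9 * (X : PowerSeries C3) ^ 2) = 1 := by simp

theorem lp2_ps : ps34 (gs34 C3) = ((1 - 3 * gs34 C3) * (1 + 3 * gs34 C3)) ^ 2 := by
  unfold ps34
  ring

theorem lp2_c5 : PowerSeries.constantCoeff (ps34 (gs34 C3)) = 1 := by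
  rw [lp2_ps, map_pow, map_mul, lp2_c1, lp2_c2]
  norm_num

/-! ### the relations -/

theorem lp2_rel1 (he : Eq34) : R34 C3 * (1 - X) = (1 - gs34 C3) * Rp34 C3 := by
  have hS := mul_inv_of lp2_S0
  have h1 := mul_inv_of lp2_c5
  have h2 := mul_inv_of lp2_cp
  have h3 := lp2_m he
  rw [lp2_ps] at h1
  unfold R34 Rp34 ns34
  rw [lp2_ps]
  set S := S34 C3
  set g := gs34 C3
  set Si := invOfUnit S 1
  set I := invOfUnit (((1 - 3 * g) * (1 + 3 * g)) ^ 2) 1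
  set J := invOfUnit ((1 + 3 * (X : PowerSeries C3)) * (1 - 3 * g) ^ 2) 1
  have e1 : Si * ((1 - X ^ 2) ^ 2 * I) * (1 - X) =
      Si * (1 - X) ^ 3 * (1 + X) ^ 2 * I * ((1 + 3 * X) * (1 - 3 * g) ^ 2 * J) := by
    rw [h2]
    ring
  have e2 : (1 - g) * ((1 + X) ^ 2 * (1 + 3 * g) * J) =
      (1 - g) * ((1 + X) ^ 2 * (1 + 3 * g) * J) * (S * Si) *
        (((1 - 3 * g) * (1 + 3 * g)) ^ 2 * I) := by
    rw [hS, h1]
    ring
  rw [e1, e2]
  linear_combination (-(Si * (1 + X) ^ 2 * I * (1 - 3 * g) ^ 2 * J)) * h3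

theorem lp2_rel3 (he : Eq34) : R34 C3 * (1 + X) = (1 + gs34 C3) * Rm34 C3 := by
  have hS := mul_inv_of lp2_S0
  have h1 := mul_inv_of lp2_c5
  have h2 := mul_inv_of lp2_cm
  have h3 := lp2_p he
  rw [lp2_ps] at h1
  unfold R34 Rm34 ns34
  rw [lp2_ps]
  set S := S34 C3
  set g := gs34 C3
  set Si := invOfUnit S 1
  set I := invOfUnit (((1 - 3 * g) * (1 + 3 * g)) ^ 2) 1
  set J := invOfUnit ((1 - 3 * (X : PowerSeries C3)) * (1 + 3 * g) ^ 2) 1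
  have e1 : Si * ((1 - X ^ 2) ^ 2 * I) * (1 + X) =
      Si * (1 + X) ^ 3 * (1 - X) ^ 2 * I * ((1 - 3 * X) * (1 + 3 * g) ^ 2 * J) := by
    rw [h2]
    ring
  have e2 : (1 + g) * ((1 - X) ^ 2 * (1 - 3 * g) * J) =
      (1 + g) * ((1 - X) ^ 2 * (1 - 3 * g) * J) * (S * Si) *
        (((1 - 3 * g) * (1 + 3 * g)) ^ 2 * I) := by
    rw [hS, h1]
    ring
  rw [e1, e2]
  linear_combination (-(Si * (1 - X) ^ 2 * I * (1 + 3 * g) ^ 2 * J)) * h3

theorem lp2_rel2 (he : Eq34) : Rp34 C3 * (1 + X) = (1 + gs34 C3) * Rc34 C3 := by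
  have h1 := mul_inv_of lp2_cp
  have h2 := mul_inv_of lp2_cc
  have h3 := lp2_p he
  unfold Rp34 Rc34
  set S := S34 C3
  set g := gs34 C3
  set J := invOfUnit ((1 + 3 * (X : PowerSeries C3)) * (1 - 3 * g) ^ 2) 1
  set L := invOfUnit (1 - 9 * (X : PowerSeries C3) ^ 2) 1
  have e1 : (1 + X) ^ 2 * (1 + 3 * g) * J * (1 + X) =
      (1 + X) ^ 2 * (1 + 3 * g) * J * (1 + X) * ((1 - 9 * X ^ 2) * L) := by
    rw [h2, mul_one]
  have e2 : (1 + g) * (S * (1 - 9 * g ^ 2) * L) =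
      (1 + g) * (S * (1 - 9 * g ^ 2) * L) * ((1 + 3 * X) * (1 - 3 * g) ^ 2 * J) := by
    rw [h1, mul_one]
  rw [e1, e2]
  linear_combination (-((1 + 3 * g) * J * (1 + 3 * X) * L)) * h3

theorem lp2_R (he : Eq34) : RelR 3 (S34 C3) (R34 C3) := by
  have hS := mul_inv_of lp2_S0
  have h1 := mul_inv_of lp2_c5
  have hP : S34 C3 * Polynomial.aeval (gs34 C3)
      ((1 + Polynomial.X) * (1 - 3 * Polynomial.X) ^ 3 : Polynomial C3) =
      (((1 + Polynomial.X) ^ 3 * (1 - 3 * Polynomial.X) : Polynomial C3) : PowerSeries C3) := by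
    have h2 := lp2_p he
    rw [map_mul, map_pow, map_add, map_sub, map_mul, map_one, Polynomial.aeval_X, map_ofNat,
      ← Polynomial.coeToPowerSeries.ringHom_apply, map_mul, map_pow, map_add, map_sub, map_mul,
      map_one, map_ofNat, Polynomial.coeToPowerSeries.ringHom_apply, Polynomial.coe_X, ← h2]
    ring
  have h2 := LN.polyR 3 _ _ lp2_gS hP
  have e1 : ((1 + Polynomial.X) * (1 - 3 * Polynomial.X) ^ 3 : Polynomial C3) -
      Polynomial.X * Polynomial.derivative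
        ((1 + Polynomial.X) * (1 - 3 * Polynomial.X) ^ 3 : Polynomial C3) =
      (1 - 9 * Polynomial.X ^ 2) ^ 2 := by
    have hd : Polynomial.derivative
        ((1 + Polynomial.X) * (1 - 3 * Polynomial.X) ^ 3 : Polynomial C3) =
        (1 - 3 * Polynomial.X) ^ 3 - 9 * (1 + Polynomial.X) * (1 - 3 * Polynomial.X) ^ 2 := by
      simp only [Polynomial.derivative_add, Polynomial.derivative_sub, Polynomial.derivative_mul,
        Polynomial.derivative_pow, Polynomial.derivative_one, Polynomial.derivative_X,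
        Polynomial.derivative_ofNat]
      push_cast
      simp only [map_ofNat]
      ring
    rw [hd]
    ring
  have e2 : Polynomial.derivative
      ((1 + Polynomial.X) ^ 3 * (1 - 3 * Polynomial.X) : Polynomial C3) =
      3 * (1 + Polynomial.X) ^ 2 * (1 - 3 * Polynomial.X) - 3 * (1 + Polynomial.X) ^ 3 := by
    simp only [Polynomial.derivative_add, Polynomial.derivative_sub, Polynomial.derivative_mul,
      Polynomial.derivative_pow, Polynomial.derivative_one, Polynomial.derivative_X,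
      Polynomial.derivative_ofNat]
    push_cast
    simp only [map_ofNat]
    ring
  rw [e1, e2] at h2
  have e3 : Polynomial.aeval (gs34 C3) ((1 - 9 * Polynomial.X ^ 2) ^ 2 : Polynomial C3) =
      (1 - 9 * gs34 C3 ^ 2) ^ 2 := by
    rw [map_pow, map_sub, map_mul, map_pow, map_one, Polynomial.aeval_X, map_ofNat]
  have e4 : (((1 + Polynomial.X) ^ 3 * (1 - 3 * Polynomial.X) : Polynomial C3) :
      PowerSeries C3) = (1 + X) ^ 3 * (1 - 3 * X) := by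
    rw [← Polynomial.coeToPowerSeries.ringHom_apply, map_mul, map_pow, map_add, map_sub, map_mul,
      map_one, map_ofNat, Polynomial.coeToPowerSeries.ringHom_apply, Polynomial.coe_X]
  have e5 : ((3 * (1 + Polynomial.X) ^ 2 * (1 - 3 * Polynomial.X) - 3 * (1 + Polynomial.X) ^ 3 :
      Polynomial C3) : PowerSeries C3) =
      3 * (1 + X) ^ 2 * (1 - 3 * X) - 3 * (1 + X) ^ 3 := by
    rw [← Polynomial.coeToPowerSeries.ringHom_apply, map_sub, map_mul, map_mul, map_mul, map_pow,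
      map_pow, map_add, map_sub, map_mul, map_one, map_ofNat,
      Polynomial.coeToPowerSeries.ringHom_apply, Polynomial.coe_X]
  rw [e3, e4, e5] at h2
  unfold RelR R34
  unfold ps34 at h1 ⊢
  unfold ns34
  set S := S34 C3
  set g := gs34 C3
  set Si := invOfUnit S 1
  set I := invOfUnit ((1 - 9 * g ^ 2) ^ 2) 1
  set DS := derivative C3 S
  have h3 : ((3 : ℕ) : PowerSeries C3) = 3 := by norm_num
  rw [h3] at h2 ⊢
  have h4 : (3 * S - X * DS) * (1 - 9 * g ^ 2) ^ 2 = 3 * (1 - X ^ 2) ^ 2 := by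
    rw [h2]
    ring
  linear_combination (3 * (1 - X ^ 2) ^ 2 * I) * hS - I * h4 + (3 * S - X * DS) * h1

/-! ### the bounds -/

section

variable {ρ : ℝ}

theorem lp2_bR (h1 : 1 ≤ ρ) (h2 : ρ ≤ 41 / 40) (hg : Gr34) :
    Bd ρ (ρ ^ 4) (R34 C3) ∧ Bd ρ (ρ ^ 2) (Rp34 C3) ∧ Bd ρ (ρ ^ 2) (Rm34 C3) ∧
      Bd ρ 1 (Rc34 C3) := by
  have hρ : 0 < ρ := one_pos.trans_le h1
  have hS := lp2_S h1 h2 hg
  have hSi := lp2_inv hρ hS lp2_S0
  have b1 : Bd ρ 1 (1 : PowerSeries C3) := Bd.one le_rfl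
  have b3g := lp2_3g h1 h2 hg
  have b3X := lp2_3X h1 h2
  have pg : Bd ρ 1 (1 + 3 * gs34 C3) := b1.add hρ.le b3g
  have mg : Bd ρ 1 (1 - 3 * gs34 C3) := b1.sub hρ.le b3g
  have pX : Bd ρ 1 (1 + 3 * (X : PowerSeries C3)) := b1.add hρ.le b3X
  have mX : Bd ρ 1 (1 - 3 * (X : PowerSeries C3)) := b1.sub hρ.le b3X
  have hps : Bd ρ 1 (invOfUnit (ps34 (gs34 C3)) 1) := by
    refine lp2_inv hρ ?_ lp2_c5
    rw [lp2_ps]
    exact (mg.mul1 hρ pg).pow1 hρ 2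
  refine ⟨?_, ?_, ?_, ?_⟩
  · have e1 : Bd ρ ((ρ * ρ) ^ 2) (((1 - X) * (1 + X)) ^ 2 : PowerSeries C3) :=
      ((lp2_mX h1).mul hρ (lp2_pX h1)).pow hρ 2
    have e2 : R34 C3 = ((1 - X) * (1 + X)) ^ 2 * invOfUnit (ps34 (gs34 C3)) 1 *
        invOfUnit (S34 C3) 1 := by
      unfold R34 ns34
      ring
    have e3 : (ρ * ρ) ^ 2 = ρ ^ 4 := by ring
    rw [e2, ← e3]
    exact (e1.mul1 hρ hps).mul1 hρ hSi
  · unfold Rp34
    exact (((lp2_pX h1).pow hρ 2).mul1 hρ pg).mul1 hρ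
      (lp2_inv hρ (pX.mul1 hρ (mg.pow1 hρ 2)) lp2_cp)
  · unfold Rm34
    exact (((lp2_mX h1).pow hρ 2).mul1 hρ mg).mul1 hρ
      (lp2_inv hρ (mX.mul1 hρ (pg.pow1 hρ 2)) lp2_cm)
  · unfold Rc34
    have e1 : (1 - 9 * gs34 C3 ^ 2) = (1 - 3 * gs34 C3) * (1 + 3 * gs34 C3) := by ring
    have e2 : (1 - 9 * (X : PowerSeries C3) ^ 2) =
        (1 - 3 * (X : PowerSeries C3)) * (1 + 3 * X) := by ring
    have e3 : Bd ρ 1 (1 - 9 * (X : PowerSeries C3) ^ 2) := by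
      rw [e2]
      exact mX.mul1 hρ pX
    rw [e1]
    exact (hS.mul1 hρ (mg.mul1 hρ pg)).mul1 hρ (lp2_inv hρ e3 lp2_cc)

end

theorem lp2_sp (he : Eq34) (hg : Gr34) : SB (S34 C3) 1 where
  bS := lp2_bS hg
  cS := by
    have h1 : (1 : ℝ) ≤ 41 / 40 := by norm_num
    have hρ : (0 : ℝ) < 41 / 40 := by norm_num
    have pg : Bd (41 / 40) 1 (1 + 3 * gs34 C3) := (Bd.one le_rfl).add hρ.le (lp2_3g h1 le_rfl hg)
    have pX : Bd (41 / 40) 1 (1 + 3 * (X : PowerSeries C3)) :=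
      (Bd.one le_rfl).add hρ.le (lp2_3X h1 le_rfl)
    have hI := lp2_inv hρ pg lp2_c1
    have hi := mul_inv_of lp2_c1
    refine ⟨(1 - X) ^ 2 * (1 + 3 * X) * invOfUnit (1 + 3 * gs34 C3) 1 ^ 3 - (1 + X + X ^ 2),
      ?_, ?_⟩
    · have e1 : Bd (41 / 40) ((41 / 40) ^ 2) ((1 - X) ^ 2 * (1 + 3 * X) *
          invOfUnit (1 + 3 * gs34 C3) 1 ^ 3) :=
        (((lp2_mX h1).pow hρ 2).mul1 hρ pX).mul1 hρ (hI.pow1 hρ 3)
      have e2 : Bd (41 / 40) ((41 / 40) ^ 2) (1 + (X : PowerSeries C3) + X ^ 2) := by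
        have e3 : Bd (41 / 40) ((41 / 40) ^ 2) (1 + (X : PowerSeries C3)) :=
          (lp2_pX h1).mono_c (by norm_num)
        exact e3.add hρ.le (lp2_X hρ 2)
      exact (e1.sub hρ.le e2).mono_c (by norm_num)
    · rw [map_one, one_mul]
      have h3 := lp2_m he
      have h4 := lp2_gS
      set S := S34 C3
      set g := gs34 C3
      set I := invOfUnit (1 + 3 * g) 1
      have h5 : (1 + 3 * g) ^ 3 * I ^ 3 = 1 := by rw [← mul_pow, hi, one_pow]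
      linear_combination (I ^ 3) * h3 - (S * (1 - g)) * h5 + h4

theorem lp2_sm (he : Eq34) (hg : Gr34) : SB (S34 C3) (-1) where
  bS := lp2_bS hg
  cS := by
    have h1 : (1 : ℝ) ≤ 41 / 40 := by norm_num
    have hρ : (0 : ℝ) < 41 / 40 := by norm_num
    have mg : Bd (41 / 40) 1 (1 - 3 * gs34 C3) := (Bd.one le_rfl).sub hρ.le (lp2_3g h1 le_rfl hg)
    have mX : Bd (41 / 40) 1 (1 - 3 * (X : PowerSeries C3)) :=
      (Bd.one le_rfl).sub hρ.le (lp2_3X h1 le_rfl)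
    have hI := lp2_inv hρ mg lp2_c2
    have hi := mul_inv_of lp2_c2
    refine ⟨(1 + X) ^ 2 * (1 - 3 * X) * invOfUnit (1 - 3 * gs34 C3) 1 ^ 3 - (1 - X + X ^ 2),
      ?_, ?_⟩
    · have e1 : Bd (41 / 40) ((41 / 40) ^ 2) ((1 + X) ^ 2 * (1 - 3 * X) *
          invOfUnit (1 - 3 * gs34 C3) 1 ^ 3) :=
        (((lp2_pX h1).pow hρ 2).mul1 hρ mX).mul1 hρ (hI.pow1 hρ 3)
      have e2 : Bd (41 / 40) ((41 / 40) ^ 2) (1 - (X : PowerSeries C3) + X ^ 2) := by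
        have e3 : Bd (41 / 40) ((41 / 40) ^ 2) (1 - (X : PowerSeries C3)) :=
          (lp2_mX h1).mono_c (by norm_num)
        exact e3.add hρ.le (lp2_X hρ 2)
      exact (e1.sub hρ.le e2).mono_c (by norm_num)
    · rw [map_neg, map_one]
      have h3 := lp2_p he
      have h4 := lp2_gS
      set S := S34 C3
      set g := gs34 C3
      set I := invOfUnit (1 - 3 * g) 1
      have h5 : (1 - 3 * g) ^ 3 * I ^ 3 = 1 := by rw [← mul_pow, hi, one_pow]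
      linear_combination (I ^ 3) * h3 - (S * (1 + g)) * h5 - h4

theorem bnd34 (he : Eq34) (hg : Gr34) : Bnd34 := by
  have h1 : (1 : ℝ) ≤ 41 / 40 := by norm_num
  obtain ⟨a1, a2, a3, a4⟩ := lp2_bR h1 le_rfl hg
  obtain ⟨b1, b2, b3, b4⟩ := lp2_bR le_rfl h1 hg
  rw [one_pow] at b1 b2 b3
  have c4 : ((41 : ℝ) / 40) ^ 4 ≤ 2 := by norm_num
  have c2 : ((41 : ℝ) / 40) ^ 2 ≤ 2 := by norm_num
  refine ⟨lp2_R he, lp2_sp he hg, lp2_sm he hg, ⟨?_, a1.mono_c c4, a2.mono_c c2, b1, b2⟩,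
    ⟨?_, a2.mono_c c2, a4.mono_c (by norm_num), b2, b4⟩,
    ⟨?_, a1.mono_c c4, a3.mono_c c2, b1, b3⟩⟩
  · rw [map_one, one_mul, one_mul]
    exact lp2_rel1 he
  · rw [map_neg, map_one, neg_one_mul, neg_one_mul, sub_neg_eq_add, sub_neg_eq_add]
    exact lp2_rel2 he
  · rw [map_neg, map_one, neg_one_mul, neg_one_mul, sub_neg_eq_add, sub_neg_eq_add]
    exact lp2_rel3 he

end D34

end GH
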