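import Pool.Agent.GH.LN.PHelp
import Pool.Agent.GH.D3.Param3

/-!
# Ghost conjecture `(3,4)`: splitting off the two cusps
-/

open PowerSeries Filter Topology

noncomputable section

namespace GH

namespace D34

open LN D3

private theorem lp13_ghost_zero (N ν : ℕ) (w : C3) : ghostN 3 N ν w 0 = 1 := by
  unfold ghostN
  refine finprod_eq_one_of_forall_eq_one fun k ↦ ?_
  have h : multN 3 N 0 k = 0 := by
    unfold multN
    rw [if_neg (by omega)]
  rw [h, pow_zero, ite_self]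

private theorem lp13_ghost_le (N ν : ℕ) {w : C3} (hw : ‖w‖ ≤ 1) (n : ℕ) :
    ‖ghostN 3 N ν w n‖ ≤ 1 := by
  unfold ghostN
  refine finprod_induction (fun z : C3 ↦ ‖z‖ ≤ 1) (by rw [norm_one]) ?_ ?_
  · intro y z hy hz
    rw [norm_mul]
    exact mul_le_one₀ hy (norm_nonneg _) hz
  · intro k
    split_ifs
    · rw [norm_pow]
      refine pow_le_one₀ (norm_nonneg _) ?_
      have h1 : ‖((1 + 2 * ((3 : ℕ) : C3)) ^ k)‖ ≤ 1 := by
        have h2 : (1 + 2 * ((3 : ℕ) : C3)) ^ k = ((7 ^ k : ℕ) : C3) := by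
          push_cast
          norm_num
        rw [h2]
        exact IsUltrametricDist.norm_natCast_le_one C3 _
      have h3 : ‖(1 + 2 * ((3 : ℕ) : C3)) ^ k - 1‖ ≤ 1 := by
        refine (norm_sub_le_max' _ _).trans (max_le h1 ?_)
        rw [norm_one]
      exact (norm_sub_le_max' _ _).trans (max_le hw h3)
    · rw [norm_one]

private theorem lp13_shf_le {b : ℕ → C3} (h : ∀ n, ‖b n‖ ≤ 1) (n : ℕ) : ‖shf b n‖ ≤ 1 := by
  unfold shf
  split_ifs
  · rw [norm_one]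
  · exact h _

private theorem lp13_mat (x : C3) :
    Mat34 x = mt 3 (S34 C3) (R34 C3 * ppow (S34 C3) (-x)) := by
  funext i j
  exact mat_eq_mt 3 (constantCoeff_SN 3 4 three_ne C3) _ x i j

/-- **The cusps `f = 1` and `f = -1` for `(3, 4)`.** -/
theorem cen34 (hb : Bnd34) (hc : CentralTheorem34) : Cen34 := by
  intro x hx
  have hρ : (1 : ℝ) < 41 / 40 := by norm_num
  have hρ0 : (0 : ℝ) < 41 / 40 := by norm_num
  have hS0 : PowerSeries.constantCoeff (S34 C3) = 1 := constantCoeff_SN 3 4 three_ne C3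
  have hg : gs34 C3 * S34 C3 = X ^ 3 := gsN_mul 3 4 three_ne C3
  have hg0 : PowerSeries.constantCoeff (gs34 C3) = 0 := constantCoeff_gsN 3 4 three_ne C3
  have hs : ∀ l : ℕ, ‖-x - (l : C3)‖ ≤ 1 := fun l ↦ by
    refine (norm_sub_le_max' _ _).trans (max_le ?_ ?_)
    · rw [norm_neg]
      exact hx
    · exact IsUltrametricDist.norm_natCast_le_one C3 l
  have hSb : Bd (41 / 40) 1 (S34 C3) := by
    have h := (Bd.one (ρ := (41 / 40 : ℝ)) (K := C3) le_rfl).add hρ0.le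
      (hb.sp.bS.mono_c (by norm_num : (2 / 5 : ℝ) ≤ 1))
    rwa [add_sub_cancel] at h
  set T := ppow (S34 C3) (-x) with hTd
  have hT : Bd (41 / 40) 1 T := Bd.ppow hρ0 hb.sp.bS hS0 fac3 (by norm_num) hs
  have hT' : Bd 1 1 T := hT.mono_r zero_le_one hρ.le
  obtain ⟨S1, hS1, eS1⟩ := hb.sp.cS
  obtain ⟨S2, hS2, eS2⟩ := hb.sm.cS
  obtain ⟨T1, hT1, eT1⟩ := ppow_div hρ0 hb.sp.bS hS0 fac3 (by norm_num) hs hS1 eS1
  obtain ⟨T2, hT2, eT2⟩ := ppow_div hρ0 hb.sp.bS hS0 fac3 (by norm_num) hs hS2 eS2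
  -- the series
  have bR := hb.c1.bP.mul1 hρ0 hT
  have bRp := hb.c1.bPc.mul1 hρ0 hT
  have bRm := hb.c3.bPc.mul1 hρ0 hT
  have bRc := hb.c2.bPc.mul1 hρ0 hT
  have oR := hb.c1.bP1.mul1 one_pos hT'
  have oRp := hb.c1.bPc1.mul1 one_pos hT'
  have oRc := hb.c2.bPc1.mul1 one_pos hT'
  have r1 : R34 C3 * T * (1 - C (1 : C3) * X) = (1 - C (1 : C3) * gs34 C3) * (Rp34 C3 * T) := by
    linear_combination T * hb.c1.rel
  have r2 : Rp34 C3 * T * (1 - C (-1 : C3) * X) =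
      (1 - C (-1 : C3) * gs34 C3) * (Rc34 C3 * T) := by
    linear_combination T * hb.c2.rel
  have r3 : R34 C3 * T * (1 - C (-1 : C3) * X) =
      (1 - C (-1 : C3) * gs34 C3) * (Rm34 C3 * T) := by
    linear_combination T * hb.c3.rel
  -- the ghost series
  set b := ghostN 3 4 0 (wx3 (2 * x)) with hbd
  have hw : ‖wx3 (2 * x)‖ ≤ 1 := by
    have h2 : ‖(2 : C3) * x‖ ≤ 1 := by
      rw [norm_mul]
      exact mul_le_one₀ (IsUltrametricDist.norm_natCast_le_one C3 2) (norm_nonneg _) hx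
    rw [norm_wx3 h2]
    linarith [norm_nonneg ((2 : C3) * x)]
  have b0 : b 0 = 1 := lp13_ghost_zero 4 0 _
  have b1 : ∀ n, ‖b n‖ ≤ 1 := lp13_ghost_le 4 0 hw
  have hc1 : newtonPolygon 3 (fred (mt 3 (S34 C3) (R34 C3 * T))) =
      newtonPolygon 3 (shf (shf b)) := by
    rw [← lp13_mat x, hc x hx]
    congr 1
    funext n
    unfold shf
    rcases n with _ | _ | n
    · simp
    · simp
    · rw [if_neg (by omega), if_neg (by omega), if_neg (by omega)]
      rfl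
  -- the cusp `f = 1`
  have s1 : newtonPolygon 3 (fred (mt 3 (S34 C3) (Rp34 C3 * T))) =
      newtonPolygon 3 (shf b) := by
    refine np_cusp (by norm_num) hρ hg hg0 hS0 rfl rfl hSb bR bRp oR oRp (a := 1) (one_mul 1) r1
      ?_ rfl (lp13_shf_le b1) hc1
    exact ev_cusp three_ne hρ hg hg0 hS0 hb.hR hSb hb.c1.bPc hT1 (one_mul 1) hb.c1.rel eT1
  -- the cusp `f = -1`
  refine np_cusp (p := 3) (M' := Mc34 x) (by norm_num) hρ hg hg0 hS0 rfl rfl hSb bRp bRc oRp oRc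
    (a := -1) (by ring) r2 ?_ b0 b1 s1
  have e1 := ev_cusp three_ne hρ hg hg0 hS0 hb.hR hSb hb.c3.bPc hT2 (by ring) hb.c3.rel eT2
  refine ev_cusp2 (a := 1) (b := -1) three_ne hρ (one_mul 1) (by ring) (by norm_num)
    (fun i j hij ↦ mt_zero i j hij) (fun i j hij ↦ mt_zero i j hij) (mt_dec hρ0 hSb bRp)
    (fun i j hi hj ↦ mt_rel hg 1 r1 i j hi hj) e1 ?_
  have e2 := ev_next three_ne hρ (b := (-1 : C3)) (by ring)
    (fun i j hij ↦ mt_zero (p := 3) (S := S34 C3) (P := R34 C3 * T) i j hij)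
    (fun i j hij ↦ mt_zero i j hij) (mt_dec hρ0 hSb bRm)
    (fun i j hi hj ↦ mt_rel hg (-1) r3 i j hi hj) 1 le_rfl (by rw [pow_one]; exact e1)
  have e3 : (-1 : C3) ^ (1 + 1) = -1 * -1 := by ring
  rw [e3] at e2
  exact e2

end D34

end GH
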