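import Pool.Agent.GH.LN.EStm
import Pool.Agent.GH.LN.GrN

/-!
# Ghost conjecture `(3,4)`: the equations of `S` and the growth of `S`
-/

open PowerSeries Filter Topology

noncomputable section

namespace GH

namespace D34

/-! ### the equations -/

theorem x34_ne : LN.AN 3 4 ℤ ≠ 0 := by
  intro h0
  have h1 := LN.constantCoeff_AN 3 4 ℤ
  rw [h0, map_zero] at h1
  exact zero_ne_one h1

theorem eq34 (h : LN.K34) : Eq34 where
  p := by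
    apply LN.sbN_inj 3 4 ℤ
    have e1 := h.relp
    rw [LN.AN_expand 3 4 D32.three_ne ℤ, ← LN.gsN_subst 3 4 D32.three_ne ℤ,
      ← LN.sbN_apply, ← LN.sbN_apply] at e1
    have e2 : LN.sbN 3 4 ℤ (S34 ℤ * (1 + gs34 ℤ) * (1 - 3 * gs34 ℤ) ^ 3) =
        LN.sbN 3 4 ℤ (LN.SN 3 4 D32.three_ne ℤ) *
          (1 + LN.sbN 3 4 ℤ (LN.gsN 3 4 D32.three_ne ℤ)) *
          (1 - 3 * LN.sbN 3 4 ℤ (LN.gsN 3 4 D32.three_ne ℤ)) ^ 3 := by
      rw [S34_eq, gs34_eq]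
      simp only [map_mul, map_add, map_sub, map_one, map_pow, map_ofNat]
    have e3 : LN.sbN 3 4 ℤ ((1 + (X : PowerSeries ℤ)) ^ 3 * (1 - 3 * X)) =
        (1 + hauptN 3 4 ℤ) ^ 3 * (1 - 3 * hauptN 3 4 ℤ) := by
      simp only [map_mul, map_add, map_sub, map_one, map_pow, map_ofNat, LN.sbN_X]
    rw [e2, e3]
    apply mul_left_cancel₀ x34_ne
    linear_combination e1
  m := by
    apply LN.sbN_inj 3 4 ℤ
    have e1 := h.relm
    rw [LN.AN_expand 3 4 D32.three_ne ℤ, ← LN.gsN_subst 3 4 D32.three_ne ℤ,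
      ← LN.sbN_apply, ← LN.sbN_apply] at e1
    have e2 : LN.sbN 3 4 ℤ (S34 ℤ * (1 - gs34 ℤ) * (1 + 3 * gs34 ℤ) ^ 3) =
        LN.sbN 3 4 ℤ (LN.SN 3 4 D32.three_ne ℤ) *
          (1 - LN.sbN 3 4 ℤ (LN.gsN 3 4 D32.three_ne ℤ)) *
          (1 + 3 * LN.sbN 3 4 ℤ (LN.gsN 3 4 D32.three_ne ℤ)) ^ 3 := by
      rw [S34_eq, gs34_eq]
      simp only [map_mul, map_add, map_sub, map_one, map_pow, map_ofNat]
    have e3 : LN.sbN 3 4 ℤ ((1 - (X : PowerSeries ℤ)) ^ 3 * (1 + 3 * X)) =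
        (1 - hauptN 3 4 ℤ) ^ 3 * (1 + 3 * hauptN 3 4 ℤ) := by
      simp only [map_mul, map_add, map_sub, map_one, map_pow, map_ofNat, LN.sbN_X]
    rw [e2, e3]
    apply mul_left_cancel₀ x34_ne
    linear_combination e1

/-! ### growth -/

theorem x34_step (S T : PowerSeries ℤ) (h0 : PowerSeries.constantCoeff S = 1) (hT : S * T = 1)
    (h : S * (1 + X ^ 3 * T) * (1 - 3 * (X ^ 3 * T)) ^ 3 = (1 + (X : PowerSeries ℤ)) ^ 3 *
      (1 - 3 * X)) (m : ℕ) (hm : LN.Gr 3 4 m S) : LN.Gr 3 4 (m + 1) S := by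
  have h4 : 1 ≤ 4 := by norm_num
  have c3 : (3 : PowerSeries ℤ) = C (3 : ℤ) := (map_ofNat C 3).symm
  -- `T`
  have gT : LN.Gr 3 4 m T := hm.inv h4 h0 hT
  have g1 : LN.Gr 3 4 (m + 1) (C (3 : ℤ) * (X ^ 3 * T)) :=
    gT.CX h4 3 1 3 (by norm_num) (by norm_num) (by omega)
  have gone : LN.Gr 3 4 (m + 1) (1 : PowerSeries ℤ) := LN.gr_one h4 _
  obtain ⟨W, hW⟩ : ∃ W : PowerSeries ℤ, W = (1 - C (3 : ℤ) * (X ^ 3 * T)) ^ 3 := ⟨_, rfl⟩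
  have gW : LN.Gr 3 4 (m + 1) W := hW ▸ (gone.sub g1).pow h4 3
  have cW : PowerSeries.constantCoeff W = 1 := by
    rw [hW]
    simp
  obtain ⟨V, hV⟩ : ∃ V : PowerSeries ℤ, W * V = 1 := ⟨_, LN.mul_inv_of cW⟩
  have gV : LN.Gr 3 4 (m + 1) V := gW.inv h4 cW hV
  -- the polynomial
  have q1 : LN.Gr 3 4 (m + 1) (C (-6 : ℤ) * (X ^ 2 * 1)) :=
    gone.CX h4 (-6) 1 2 (by norm_num) (by norm_num) (by omega)
  have q2 : LN.Gr 3 4 (m + 1) (C (-9 : ℤ) * (X ^ 3 * 1)) :=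
    gone.CX h4 (-9) 1 3 (by norm_num) (by norm_num) (by omega)
  have q3 : LN.Gr 3 4 (m + 1) (C (-3 : ℤ) * (X ^ 4 * 1)) :=
    gone.CX h4 (-3) 1 4 (by norm_num) (by norm_num) (by omega)
  have r1 : LN.Gr 3 4 (m + 1) (C (9 : ℤ) * (X ^ 6 * T)) :=
    gT.CX h4 9 2 6 (by norm_num) (by norm_num) (by omega)
  have r2 : LN.Gr 3 4 (m + 1) (C (-27 : ℤ) * (X ^ 9 * T ^ 2)) :=
    (gT.pow h4 2).CX h4 (-27) 3 9 (by norm_num) (by norm_num) (by omega)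
  have r3 : LN.Gr 3 4 (m + 1) (C (27 : ℤ) * (X ^ 12 * T ^ 3)) :=
    (gT.pow h4 3).CX h4 27 3 12 (by norm_num) (by norm_num) (by omega)
  have gP := (((((gone.add q1).add q2).add q3).add r1).add r2).add r3
  have c6 : C (-6 : ℤ) = (-6 : PowerSeries ℤ) := by
    rw [map_neg, map_ofNat]
  have c9 : C (-9 : ℤ) = (-9 : PowerSeries ℤ) := by
    rw [map_neg, map_ofNat]
  have c3' : C (-3 : ℤ) = (-3 : PowerSeries ℤ) := by
    rw [map_neg, map_ofNat]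
  have c9' : C (9 : ℤ) = (9 : PowerSeries ℤ) := map_ofNat C 9
  have c27 : C (-27 : ℤ) = (-27 : PowerSeries ℤ) := by
    rw [map_neg, map_ofNat]
  have c27' : C (27 : ℤ) = (27 : PowerSeries ℤ) := map_ofNat C 27
  have key : S = (1 + C (-6 : ℤ) * (X ^ 2 * 1) + C (-9 : ℤ) * (X ^ 3 * 1) +
      C (-3 : ℤ) * (X ^ 4 * 1) + C (9 : ℤ) * (X ^ 6 * T) + C (-27 : ℤ) * (X ^ 9 * T ^ 2) +
      C (27 : ℤ) * (X ^ 12 * T ^ 3)) * V := by
    have e1 : S * W = 1 + C (-6 : ℤ) * (X ^ 2 * 1) + C (-9 : ℤ) * (X ^ 3 * 1) +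
      C (-3 : ℤ) * (X ^ 4 * 1) + C (9 : ℤ) * (X ^ 6 * T) + C (-27 : ℤ) * (X ^ 9 * T ^ 2) +
      C (27 : ℤ) * (X ^ 12 * T ^ 3) := by
      rw [hW, ← c3, c6, c9, c3', c9', c27, c27']
      linear_combination h - X ^ 3 * (1 - 3 * (X ^ 3 * T)) ^ 3 * hT
    calc S = S * (W * V) := by rw [hV, mul_one]
      _ = S * W * V := by ring
      _ = _ := by rw [e1]
  rw [key]
  exact gP.mul h4 gV

theorem gr34 (h : Eq34) : Gr34 := by
  have h0 : PowerSeries.constantCoeff (S34 ℤ) = 1 := LN.constantCoeff_SN 3 4 three_ne ℤ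
  have hT : S34 ℤ * invOfUnit (S34 ℤ) 1 = 1 := LN.mul_inv_of h0
  have h1 : LN.GrA 3 4 (S34 ℤ) :=
    LN.grA_of_step fun m hm ↦ x34_step _ _ h0 hT h.p m hm
  intro n
  have h2 := h1 n
  exact_mod_cast h2

end D34

end GH
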