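import Pool.Agent.GH.LN.PHelp
import Pool.Agent.GH.LN.CompN
import Pool.Agent.GH.D3.QHaupt3

/-!
# Ghost conjecture `(3,4)`: the glue with the Eisenstein family
-/

open PowerSeries Filter Topology

noncomputable section

namespace GH

namespace D34

open LN D3 GP DP

/-! ### The series `P = (1+3X)(1-3X)⁴` -/

theorem lp7_n3 : ‖(3 : C3)‖ = 3⁻¹ := norm_three_C3

/-- `(1+3X)(1-3X)⁴`. -/
def lp7_P : PowerSeries C3 := (1 + 3 * X) * (1 - 3 * X) ^ 4

/-- `X(1-X)(1+X)⁴/P`. -/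
def lp7_r : PowerSeries C3 := X * (1 - X) * (1 + X) ^ 4 * invOfUnit lp7_P 1

theorem lp7_P0 : PowerSeries.constantCoeff lp7_P = 1 := by
  unfold lp7_P
  simp

theorem lp7_r0 : PowerSeries.constantCoeff lp7_r = 0 := by
  unfold lp7_r
  simp

theorem lp7_rho : (0 : ℝ) < 41 / 40 := by norm_num

theorem lp7_C (n : ℕ) [n.AtLeastTwo] :
    (OfNat.ofNat n : PowerSeries C3) = C (OfNat.ofNat n : C3) := by
  rw [map_ofNat]

theorem lp7_CX {a : C3} {k : ℕ} {e : ℝ} (h : ‖a‖ * (41 / 40 : ℝ) ^ k ≤ e) :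
    Bd (41 / 40) e (C a * X ^ k : PowerSeries C3) := by
  have h1 : Bd (41 / 40) e (C a * (X ^ k * (1 : PowerSeries C3))) :=
    Bd.CX lp7_rho (Bd.one le_rfl) (by rw [mul_one]; exact h)
  rwa [mul_one] at h1

theorem lp7_P1 : Bd (41 / 40) 1 lp7_P := by
  have h3 : ‖(3 : C3)‖ * (41 / 40 : ℝ) ^ 1 ≤ 1 := by
    rw [lp7_n3]
    norm_num
  have h : Bd (41 / 40) 1 (3 * X : PowerSeries C3) := by
    have h1 := lp7_CX h3
    rw [pow_one, map_ofNat] at h1
    exact h1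
  unfold lp7_P
  exact ((Bd.one le_rfl).add lp7_rho.le h).mul1 lp7_rho
    (((Bd.one le_rfl).sub lp7_rho.le h).pow1 lp7_rho 4)

theorem lp7_Pm : Bd (41 / 40) (1 / 8) (lp7_P - 1) := by
  have e : lp7_P - 1 = C 9 * (X ^ 1 * (-1 + C 2 * X ^ 1 + C 6 * X ^ 2 - C 27 * X ^ 3 +
      C 27 * X ^ 4)) := by
    unfold lp7_P
    simp only [map_ofNat]
    ring
  have hn2 : ‖(2 : C3)‖ ≤ 1 := by
    have h := d3_ubn_int 2
    exact_mod_cast h
  have hn6 : ‖(6 : C3)‖ ≤ 3⁻¹ := by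
    have h : (6 : C3) = 3 * 2 := by norm_num
    rw [h, norm_mul, lp7_n3]
    linarith
  have hn27 : ‖(27 : C3)‖ = 3⁻¹ ^ 3 := by
    have h : (27 : C3) = 3 ^ 3 := by norm_num
    rw [h, norm_pow, lp7_n3]
  have hn9 : ‖(9 : C3)‖ = 3⁻¹ ^ 2 := by
    have h : (9 : C3) = 3 ^ 2 := by norm_num
    rw [h, norm_pow, lp7_n3]
  have hF : Bd (41 / 40) (41 / 40) (-1 + C 2 * X ^ 1 + C 6 * X ^ 2 - C 27 * X ^ 3 +
      C 27 * X ^ 4 : PowerSeries C3) := by
    have b1 : Bd (41 / 40) (41 / 40) (-1 : PowerSeries C3) := (Bd.one (by norm_num)).neg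
    have b2 : Bd (41 / 40) (41 / 40) (C 2 * X ^ 1 : PowerSeries C3) :=
      lp7_CX (by rw [pow_one]; linarith)
    have b3 : Bd (41 / 40) (41 / 40) (C 6 * X ^ 2 : PowerSeries C3) :=
      lp7_CX ((mul_le_mul_of_nonneg_right hn6 (by norm_num)).trans (by norm_num))
    have b4 : Bd (41 / 40) (41 / 40) (C 27 * X ^ 3 : PowerSeries C3) :=
      lp7_CX (by rw [hn27]; norm_num)
    have b5 : Bd (41 / 40) (41 / 40) (C 27 * X ^ 4 : PowerSeries C3) :=
      lp7_CX (by rw [hn27]; norm_num)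
    exact (((b1.add lp7_rho.le b2).add lp7_rho.le b3).sub lp7_rho.le b4).add lp7_rho.le b5
  rw [e]
  exact Bd.CX lp7_rho hF (by rw [hn9]; norm_num)

theorem lp7_P2 : Bd (41 / 40) (1 / 6) (lp7_P ^ 2 - 1) := by
  have h1 : Bd (41 / 40) 1 (lp7_P + 1) := lp7_P1.add lp7_rho.le (Bd.one le_rfl)
  have h2 := lp7_Pm.mul lp7_rho h1
  have e : (lp7_P - 1) * (lp7_P + 1) = lp7_P ^ 2 - 1 := by ring
  rw [e] at h2
  exact h2.mono_c (by norm_num)

theorem lp7_mulinv : lp7_P * invOfUnit lp7_P 1 = 1 :=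
  PowerSeries.mul_invOfUnit _ _ (by rw [lp7_P0]; rfl)

theorem lp7_rb : Bd (41 / 40) (7 / 6) lp7_r := by
  have hX : Bd (41 / 40) (41 / 40) (X : PowerSeries C3) := Bd.X_le lp7_rho.le le_rfl
  have hm : Bd (41 / 40) (41 / 40) (1 - X : PowerSeries C3) :=
    (Bd.one (by norm_num)).sub lp7_rho.le hX
  have hp : Bd (41 / 40) (41 / 40) (1 + X : PowerSeries C3) :=
    (Bd.one (by norm_num)).add lp7_rho.le hX
  have hi : Bd (41 / 40) 1 (invOfUnit lp7_P 1) := Bd.inv lp7_rho lp7_P1 lp7_P0 lp7_mulinv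
  have h := (((hX.mul lp7_rho hm).mul lp7_rho (hp.pow lp7_rho 4)).mul1 lp7_rho hi)
  unfold lp7_r
  exact h.mono_c (by norm_num)

/-! ### The relations -/

theorem lp7_subP (m : ℕ) : (lp7_P ^ m).subst (hauptN 3 4 C3) =
    ((1 + 3 * hauptN 3 4 C3) * (1 - 3 * hauptN 3 4 C3) ^ 4) ^ m := by
  have hs : HasSubst (hauptN 3 4 C3) := LN.fx_hasSubst 3 4
  unfold lp7_P
  rw [← coe_substAlgHom hs]
  simp only [map_mul, map_pow, map_sub, map_add, map_one, map_ofNat, substAlgHom_X]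

theorem lp7_hr (hK : K34) : hauptmodul 3 C3 = lp7_r.subst (hauptN 3 4 C3) := by
  have hs : HasSubst (hauptN 3 4 C3) := LN.fx_hasSubst 3 4
  have h1 := congrArg (PowerSeries.map (Int.castRingHom C3)) hK.f1
  simp only [map_mul, map_pow, map_sub, map_add, map_one, map_ofNat, map_hauptmodul,
    map_hauptN] at h1
  have h2 := lp7_subP 1
  rw [pow_one, pow_one] at h2
  have h3 : (lp7_P).subst (hauptN 3 4 C3) * (invOfUnit lp7_P 1).subst (hauptN 3 4 C3) = 1 := by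
    rw [← subst_mul hs, lp7_mulinv, ← coe_substAlgHom hs, map_one]
  have h4 : lp7_r.subst (hauptN 3 4 C3) = hauptN 3 4 C3 * (1 - hauptN 3 4 C3) *
      (1 + hauptN 3 4 C3) ^ 4 * (invOfUnit lp7_P 1).subst (hauptN 3 4 C3) := by
    unfold lp7_r
    rw [← coe_substAlgHom hs]
    simp only [map_mul, map_pow, map_sub, map_add, map_one, substAlgHom_X]
  rw [h4, ← h1, ← h2, mul_assoc, h3, mul_one]

theorem lp7_ppow_pow {u : PowerSeries C3} (hu : PowerSeries.constantCoeff u = 1) (s : C3)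
    (n : ℕ) : GH.ppow (u ^ n) s = GH.ppow u s ^ n := by
  induction n with
  | zero =>
    rw [pow_zero, pow_zero]
    have h := ub_ppow_mul (map_one (PowerSeries.constantCoeff (R := C3)))
      (map_one (PowerSeries.constantCoeff (R := C3))) s
    rw [one_mul] at h
    have h0 : GH.ppow (1 : PowerSeries C3) s ≠ 0 := fun h2 ↦ by
      have h3 := ub_const_ppow (map_one (PowerSeries.constantCoeff (R := C3))) s
      rw [h2, map_zero] at h3
      exact zero_ne_one h3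
    exact (mul_left_cancel₀ h0 (by rw [mul_one]; exact h)).symm
  | succ n ih =>
    rw [pow_succ, pow_succ, ub_ppow_mul (by rw [map_pow, hu, one_pow]) hu, ih]

theorem lp7_bpow (hK : K34) (y : C3) : D3.bPow (2 * y) =
    APow34 y * (GH.ppow (lp7_P ^ 2) (y / 3)).subst (hauptN 3 4 C3) := by
  have hs : HasSubst (hauptN 3 4 C3) := LN.fx_hasSubst 3 4
  have h3 : (3 : C3) ≠ 0 := by norm_num
  have h1 := congrArg (PowerSeries.map (Int.castRingHom C3)) hK.b1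
  simp only [map_mul, map_pow, map_sub, map_add, map_one, map_ofNat, D3.map_bser,
    map_hauptN, map_AN] at h1
  rw [← lp7_subP 2] at h1
  have hb0 : PowerSeries.constantCoeff (D3.bser C3) = 1 := by
    unfold D3.bser
    rw [map_mul, map_pow, fx_constantCoeff_euler, one_pow, one_mul, constantCoeff_invOfUnit]
    simp
  have hb3 : PowerSeries.constantCoeff (D3.bser C3 ^ 3) = 1 := by
    rw [map_pow, hb0, one_pow]
  have hA0 : PowerSeries.constantCoeff (AN 3 4 C3) = 1 := constantCoeff_AN 3 4 C3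
  have hP20 : PowerSeries.constantCoeff (lp7_P ^ 2) = 1 := by
    rw [map_pow, lp7_P0, one_pow]
  have hG0 : PowerSeries.constantCoeff ((lp7_P ^ 2).subst (hauptN 3 4 C3)) = 1 := by
    rw [← PowerSeries.coeff_zero_eq_constantCoeff_apply,
      fa_coeff_subst (constantCoeff_hauptN 3 4)]
    simp [hP20]
  have e1 : D3.bPow (2 * y) = GH.ppow (D3.bser C3 ^ 6) (y / 3) := by
    unfold D3.bPow
    have e2 : (2 * y / 3 : C3) = y / 3 + y / 3 := by ring
    have e3 : D3.bser C3 ^ 6 = (D3.bser C3 ^ 3) ^ 2 := by ring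
    rw [e2, e3, ub_ppow_add hb3, lp7_ppow_pow hb3, sq]
  have e4 : GH.ppow (AN 3 4 C3 ^ 3) (y / 3) = APow34 y := by
    rw [lp7_ppow_pow hA0]
    have e5 : APow34 y = GH.ppow (AN 3 4 C3) (y / 3 + y / 3 + y / 3) := by
      unfold APow34
      rw [A34_eq]
      congr 1
      field_simp
      ring
    rw [e5, ub_ppow_add hA0, ub_ppow_add hA0]
    ring
  rw [e1, h1, ub_ppow_mul (by rw [map_pow, hA0, one_pow]) hG0, e4,
    ppow_substN hP20 (constantCoeff_hauptN 3 4)]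

theorem lp7_Q {y : C3} (hy : ‖y‖ ≤ 1) : Bd (41 / 40) 1 (GH.ppow (lp7_P ^ 2) (y / 3)) := by
  refine Bd.ppow_gen lp7_rho lp7_P2 (by rw [map_pow, lp7_P0, one_pow]) (t := 7 / 4) (m := 3) fac3
    (by norm_num) fun l ↦ ?_
  rw [sub_eq_add_neg]
  refine (IsUltrametricDist.norm_add_le_max _ _).trans (max_le ?_ ?_)
  · rw [norm_div, lp7_n3, div_inv_eq_mul]
    linarith
  · rw [norm_neg]
    have h := d3_ubn_int l
    have h2 : ‖((l : ℕ) : C3)‖ ≤ 1 := by exact_mod_cast h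
    linarith

/-- The glue. -/
theorem glu34 (h : LN.Tr3) (hK : LN.K34) :
    LN.GluN 3 4 (fun y ↦ D3.wx3 (2 * y)) (fun y ↦ APow34 y) := by
  intro E hE
  obtain ⟨u, hu, -⟩ := h E hE
  have key : ∀ y : C3, ‖y‖ ≤ 1 → ∃ v : ℕ → C3, v 0 = 1 ∧
      (∀ n, ‖v n‖ * (41 / 40 : ℝ) ^ n ≤ 1) ∧ evSp (D3.wx3 (2 * y)) E =
        APow34 y * (PowerSeries.mk v).subst (hauptN 3 4 C3) := by
    intro y hy
    have h2 : ‖2 * y‖ ≤ 1 := by
      rw [norm_mul]
      have h3 : ‖(2 : C3)‖ ≤ 1 := by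
        have h := d3_ubn_int 2
        exact_mod_cast h
      exact mul_le_one₀ h3 (norm_nonneg _) hy
    obtain ⟨u0, ub, ue⟩ := hu (2 * y) h2
    refine glueN_of (N := 4) lp7_r0 (lp7_hr hK) lp7_rho (by norm_num : (0 : ℝ) < 7 / 6) lp7_rb
      (u := fun n ↦ u n (2 * y)) u0 (fun n ↦ ?_) ue (lp7_bpow hK y) (lp7_Q hy)
      (ub_const_ppow (by rw [map_pow, lp7_P0, one_pow]) _)
    refine le_trans (mul_le_mul_of_nonneg_left ?_ (norm_nonneg _)) (ub n)
    exact pow_le_pow_left₀ (by norm_num) (by norm_num) n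
  classical
  refine ⟨fun n y ↦ if hy : ‖y‖ ≤ 1 then (key y hy).choose n else 0, fun y hy ↦ ?_⟩
  have hc : (fun n ↦ if hy : ‖y‖ ≤ 1 then (key y hy).choose n else 0) = (key y hy).choose := by
    funext n
    rw [dif_pos hy]
  obtain ⟨k0, k1, k2⟩ := (key y hy).choose_spec
  refine ⟨?_, fun n ↦ ?_, ?_⟩
  · show (if hy : ‖y‖ ≤ 1 then (key y hy).choose 0 else 0) = 1
    rw [dif_pos hy]
    exact k0
  · show ‖(if hy : ‖y‖ ≤ 1 then (key y hy).choose n else 0)‖ * (41 / 40 : ℝ) ^ n ≤ 1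
    rw [dif_pos hy]
    exact k1 n
  · show evSp (D3.wx3 (2 * y)) E = APow34 y * (PowerSeries.mk fun n ↦
      if hy : ‖y‖ ≤ 1 then (key y hy).choose n else 0).subst (hauptN 3 4 C3)
    rw [hc]
    exact k2

/-- The decay. -/
theorem ph34 (h : LN.Tr3) (hK : LN.K34) : LN.PhN 3 4 := by
  intro E hE w hw l
  obtain ⟨u, -, hu⟩ := h E hE
  have hw1 : ‖w‖ < 1 := hw.trans_lt (by norm_num)
  exact phiN_of E hE lp7_r0 (lp7_hr hK) lp7_rho (by norm_num : (0 : ℝ) < 7 / 6) lp7_rb hw1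
    (hu w hw) l

end D34

end GH
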