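import Pool.Agent.GH.LN.PHelp

/-!
# Level `N`: the matrix of `U_3` for `(3, 4)`
-/

open PowerSeries Filter Topology

noncomputable section

namespace GH

namespace D34

open LN D3

/-- `R (1-h²)/(1-g²) = R_c`. -/
theorem lp16_rel (hb : Bnd34) : R34 C3 * ((1 - X ^ 2) * invOfUnit (1 - gs34 C3 ^ 2) 1) =
    Rc34 C3 := by
  have h1 : PowerSeries.constantCoeff (1 - gs34 C3 ^ 2) = 1 := by
    have hg0 : PowerSeries.constantCoeff (gs34 C3) = 0 := constantCoeff_gsN 3 4 three_ne C3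
    rw [map_sub, map_one, map_pow, hg0]
    norm_num
  have hi := mul_inv_of h1
  have c1 := hb.c1.rel
  have c2 := hb.c2.rel
  rw [map_one, one_mul, one_mul] at c1
  rw [map_neg, map_one] at c2
  linear_combination (1 + X) * invOfUnit (1 - gs34 C3 ^ 2) 1 * c1 +
    (1 - gs34 C3) * invOfUnit (1 - gs34 C3 ^ 2) 1 * c2 + Rc34 C3 * hi

/-- `1 - f² = (1 - f(q³)²) V(f)`. -/
theorem lp16_cusp : cuspN 3 4 C3 = (cuspN 3 4 C3).expand 3 three_ne *
    ((1 - X ^ 2) * invOfUnit (1 - gs34 C3 ^ 2) 1).subst (hauptN 3 4 C3) := by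
  have h1 : PowerSeries.constantCoeff (1 - gs34 C3 ^ 2) = 1 := by
    have hg0 : PowerSeries.constantCoeff (gs34 C3) = 0 := constantCoeff_gsN 3 4 three_ne C3
    rw [map_sub, map_one, map_pow, hg0]
    norm_num
  have hW : cuspN 3 4 C3 = 1 - hauptN 3 4 C3 ^ 2 := by
    unfold cuspN
    norm_num
  have hgf : sbN 3 4 C3 (gs34 C3) = (hauptN 3 4 C3).expand 3 three_ne := by
    rw [sbN_apply]
    exact gsN_subst 3 4 three_ne C3
  have hi := congrArg (sbN 3 4 C3) (mul_inv_of h1)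
  rw [map_mul, map_sub, map_one, map_pow, hgf] at hi
  rw [← sbN_apply, hW, map_sub, map_one, map_pow, map_mul, map_sub, map_one, map_pow, sbN_X]
  linear_combination (-(1 - hauptN 3 4 C3 ^ 2)) * hi

/-- The matrix of `U_3` in the basis `A^x (1-f²) f^j`. -/
theorem um34 (hb : Bnd34) : UM34 := by
  intro x
  have h0 : PowerSeries.constantCoeff (cuspN 3 4 C3) = 1 := by
    have hW : cuspN 3 4 C3 = 1 - hauptN 3 4 C3 ^ 2 := by
      unfold cuspN
      norm_num
    rw [hW, map_sub, map_one, map_pow, constantCoeff_hauptN]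
    norm_num
  exact isUMatN_mt (p := 3) (N := 4) (R := R34 C3)
    (V := (1 - X ^ 2) * invOfUnit (1 - gs34 C3 ^ 2) 1) (Pc := Rc34 C3) (W := cuspN 3 4 C3)
    hb.hR h0 lp16_cusp (lp16_rel hb) x

end D34

end GH
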